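import Mathlib
import Pool.Agent.Y243.HW.Final

set_option autoImplicit false

/-!
# The best constant in the Hardy inequality with weight `(1+|x|^2)^α`, for every real `α`
-/

namespace Pool.Agent.Results.MP_5b99fd_an.SharpConstant

open MeasureTheory Set
open scoped ContDiff

/-- `u` is admissible for `C(α, n)`: smooth, compactly supported, not identically zero, and, when
`α < -(n-2)/2`, orthogonal to the constants with respect to `(1+|x|^2)^(α-1) dx`. -/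
def Admissible (n : ℕ) (α : ℝ) (u : EuclideanSpace ℝ (Fin n) → ℝ) : Prop :=
  ContDiff ℝ ∞ u ∧ HasCompactSupport u ∧ u ≠ 0 ∧
    (α < -((n : ℝ) - 2) / 2 → ∫ x, (1 + ‖x‖ ^ 2) ^ (α - 1) * u x = 0)

/-- the weighted Dirichlet energy `∫ (1+|x|^2)^α |∇u|^2` -/
noncomputable def energy (n : ℕ) (α : ℝ) (u : EuclideanSpace ℝ (Fin n) → ℝ) : ℝ :=
  ∫ x, (1 + ‖x‖ ^ 2) ^ α * ‖fderiv ℝ u x‖ ^ 2

/-- the weighted mass `∫ (1+|x|^2)^(α-1) u^2` -/
noncomputable def mass (n : ℕ) (α : ℝ) (u : EuclideanSpace ℝ (Fin n) → ℝ) : ℝ :=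
  ∫ x, (1 + ‖x‖ ^ 2) ^ (α - 1) * u x ^ 2

/-- the claimed value of `C(α, n)` -/
noncomputable def value (n : ℕ) (α : ℝ) : ℝ :=
  if α ≤ -n then -2 * α
  else if α ≤ -((n : ℝ) + 2) / 2 then -4 * α - 2 * n
  else if α ≤ 1 + (n : ℝ) / 2 then (n + 2 * α - 2) ^ 2 / 4
  else 2 * n * (α - 1)

theorem result (n : ℕ) (hn : 3 ≤ n) (α : ℝ) :
    (∀ u, Admissible n α u → 0 < mass n α u) ∧
    IsGLB {q : ℝ | ∃ u, Admissible n α u ∧ q = energy n α u / mass n α u} (value n α) := by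
  obtain ⟨k, rfl⟩ : ∃ k, n = k + 3 := ⟨n - 3, by omega⟩
  have hpos : ∀ u, Admissible (k + 3) α u → 0 < mass (k + 3) α u := by
    rintro u ⟨h1, h2, h3, _⟩
    exact Pool.Agent.Y243.HW.mass_pos h1.continuous h2 h3
  refine ⟨hpos, ?_, ?_⟩
  · rintro q ⟨u, hu, rfl⟩
    rw [le_div_iff₀ (hpos u hu)]
    obtain ⟨h1, h2, h3, h4⟩ := hu
    exact Pool.Agent.Y243.HW.lower_all k α (h1.of_le (by simp)) h2 h4
  · intro c hc
    apply Pool.Agent.Y243.HW.upper_all k
    intro u h1 h2 h4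
    by_cases h3 : u = 0
    · subst h3
      have e1 : fderiv ℝ (0 : EuclideanSpace ℝ (Fin (k + 3)) → ℝ) = 0 := by
        funext x
        exact fderiv_const_apply (0 : ℝ)
      simp [e1]
    · have hu : Admissible (k + 3) α u := ⟨h1, h2, h3, h4⟩
      have := hc ⟨u, hu, rfl⟩
      rw [le_div_iff₀ (hpos u hu)] at this
      exact this

end Pool.Agent.Results.MP_5b99fd_an.SharpConstant
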